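import Mathlib
set_option autoImplicit false

/-! Definitions: the field of totally real numbers, its fixed rings, and decidability of the
first-order theory of a ring. -/

namespace Pool.Agent.H68.ZA.T967.TR

open FirstOrder FirstOrder.Language IntermediateField

/-- The field `ℚ^tr` of totally real algebraic numbers: the algebraic numbers all of whose images
under the field embeddings of the algebraic closure of `ℚ` in `ℂ`, that is all of whose complex
conjugates, are real. -/
def Qtr : IntermediateField ℚ (AlgebraicClosure ℚ) where
  carrier := {x | ∀ φ : AlgebraicClosure ℚ →+* ℂ, (φ x).im = 0}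
  mul_mem' := by
    intro a b ha hb φ
    rw [map_mul, Complex.mul_im, ha φ, hb φ, mul_zero, zero_mul, add_zero]
  add_mem' := by
    intro a b ha hb φ
    rw [map_add, Complex.add_im, ha φ, hb φ, add_zero]
  algebraMap_mem' := by
    intro r φ
    rw [eq_ratCast, map_ratCast]
    exact Complex.ratCast_im r
  inv_mem' := by
    intro a ha φ
    rw [map_inv₀, Complex.inv_im, ha φ]
    simp

/-- The fixed ring `ℤ^tr(σ)`: the totally real algebraic integers fixed by `σ`. -/
def fixedRing (σ : Gal(Qtr/ℚ)) : Subring Qtr where
  carrier := {x | IsIntegral ℤ x ∧ σ x = x}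
  mul_mem' := by
    rintro a b ⟨ha, ha'⟩ ⟨hb, hb'⟩
    exact ⟨ha.mul hb, by rw [map_mul, ha', hb']⟩
  one_mem' := ⟨isIntegral_one, map_one σ⟩
  add_mem' := by
    rintro a b ⟨ha, ha'⟩ ⟨hb, hb'⟩
    exact ⟨ha.add hb, by rw [map_add, ha', hb']⟩
  zero_mem' := ⟨isIntegral_zero, map_zero σ⟩
  neg_mem' := by
    rintro a ⟨ha, ha'⟩
    exact ⟨ha.neg, by rw [map_neg, ha']⟩

/-- Gödel number of a term of the language of rings (with variables `x_0, ..., x_{k-1}`). -/
def termCode {k : ℕ} : Language.ring.Term (Empty ⊕ Fin k) → ℕ
  | .var (.inr i) => Nat.pair 0 i
  | .func ringFunc.zero _ => Nat.pair 1 0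
  | .func ringFunc.one _ => Nat.pair 2 0
  | .func ringFunc.neg ts => Nat.pair 3 (termCode (ts 0))
  | .func ringFunc.add ts => Nat.pair 4 (Nat.pair (termCode (ts 0)) (termCode (ts 1)))
  | .func ringFunc.mul ts => Nat.pair 5 (Nat.pair (termCode (ts 0)) (termCode (ts 1)))

/-- Gödel number of a formula (of a sentence when `k = 0`). -/
def code : {k : ℕ} → Language.ring.BoundedFormula Empty k → ℕ
  | _, .falsum => Nat.pair 0 0
  | _, .equal t₁ t₂ => Nat.pair 1 (Nat.pair (termCode t₁) (termCode t₂))
  | _, .imp φ ψ => Nat.pair 2 (Nat.pair (code φ) (code ψ))
  | _, .all φ => Nat.pair 3 (code φ)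

/-! ### The Gödel numbering is injective -/

theorem termCode_injective {k : ℕ} (s t : Language.ring.Term (Empty ⊕ Fin k)) (h : termCode s = termCode t) :
    s = t := by
  induction s generalizing t with
  | var x =>
    rcases x with x | i
    · exact x.elim
    · cases t with
      | var y =>
        rcases y with y | j
        · exact y.elim
        · simp only [termCode, Nat.pair_eq_pair] at h
          rw [Fin.ext h.2]
      | func g us =>
        cases g <;> simp [termCode, Nat.pair_eq_pair] at h
  | func f ts ih =>
    cases t with
    | var y =>
      rcases y with y | j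
      · exact y.elim
      · cases f <;> simp [termCode, Nat.pair_eq_pair] at h
    | func g us =>
      cases f <;> cases g <;> simp only [termCode, Nat.pair_eq_pair, false_and, true_and, OfNat.one_ne_ofNat,
        OfNat.ofNat_ne_one, Nat.reduceEqDiff] at h
      · congr 1
        funext i
        fin_cases i
        · exact ih 0 _ h.1
        · exact ih 1 _ h.2
      · congr 1
        funext i
        fin_cases i
        · exact ih 0 _ h.1
        · exact ih 1 _ h.2
      · congr 1
        funext i
        fin_cases i
        exact ih 0 _ h
      · congr 1; exact Subsingleton.elim _ _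
      · congr 1; exact Subsingleton.elim _ _

theorem code_injective {k : ℕ} (φ ψ : Language.ring.BoundedFormula Empty k) (h : code φ = code ψ) :
    φ = ψ := by
  induction φ with
  | falsum =>
    cases ψ with
    | falsum => rfl
    | equal a b => simp [code, Nat.pair_eq_pair] at h
    | rel r a => exact Empty.elim r
    | imp a b => simp [code, Nat.pair_eq_pair] at h
    | all a => simp [code, Nat.pair_eq_pair] at h
  | equal a b =>
    cases ψ with
    | falsum => simp [code, Nat.pair_eq_pair] at h
    | equal c d =>
      simp only [code, Nat.pair_eq_pair, true_and] at h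
      rw [termCode_injective _ _ h.1, termCode_injective _ _ h.2]
    | rel r a => exact Empty.elim r
    | imp a b => simp [code, Nat.pair_eq_pair] at h
    | all a => simp [code, Nat.pair_eq_pair] at h
  | rel r a => exact Empty.elim r
  | imp a b iha ihb =>
    cases ψ with
    | falsum => simp [code, Nat.pair_eq_pair] at h
    | equal c d => simp [code, Nat.pair_eq_pair] at h
    | rel r a => exact Empty.elim r
    | imp c d =>
      simp only [code, Nat.pair_eq_pair, true_and] at h
      rw [iha _ h.1, ihb _ h.2]
    | all a => simp [code, Nat.pair_eq_pair] at h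
  | all a iha =>
    cases ψ with
    | falsum => simp [code, Nat.pair_eq_pair] at h
    | equal c d => simp [code, Nat.pair_eq_pair] at h
    | rel r a => exact Empty.elim r
    | imp c d => simp [code, Nat.pair_eq_pair] at h
    | all c =>
      simp only [code, Nat.pair_eq_pair, true_and] at h
      rw [iha _ h]

/-- The sentence `φ` of the language of rings is true in the ring `R`. -/
def TrueIn (R : Type) [CommRing R] (φ : Language.ring.Sentence) : Prop :=
  letI := (FirstOrder.Ring.compatibleRingOfRing R).toStructure
  R ⊨ φ

/-- The first-order theory of the ring `R` in the language of rings is decidable: some algorithm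
decides, given (the Gödel number of) a sentence, whether it is true in `R`. -/
def DecidableTheory (R : Type) [CommRing R] : Prop :=
  ComputablePred (fun n : ℕ => ∃ φ : Language.ring.Sentence, code φ = n ∧ TrueIn R φ)

end Pool.Agent.H68.ZA.T967.TR
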