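import Pool.Agent.H68.ZA.Zab5
import Pool.Agent.H68.ZA.Def1
set_option autoImplicit false

/-! First-order definability of the roots of unity, the integers and the real elements in the ring
of abelian algebraic integers. -/

namespace Pool.Agent.H68.ZA

open FirstOrder FirstOrder.Language
open Pool.Agent.H68.ZA.T967.ArithDef Pool.Agent.H68.ZA.T967.ModelDef
open Df

attribute [local instance] Df.strO

/-- `1 - u ^ 4` as a term -/
abbrev t4 (n : ℕ) : Language.ring.Term (Empty ⊕ ℕ) := tA t1 (tN (tM (tM (tv n) (tv n)) (tM (tv n) (tv n))))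

lemma d_u4 (n : ℕ) : D Zab (fun v => IsUnit (1 - (v n) ^ 4)) := by
  refine DM.iff (fun i v => ?_) (app1 d_unit (t4 n))
  show IsUnit (1 + -((v n * v n) * (v n * v n))) ↔ _
  have e : (1 : Zab) + -((v n * v n) * (v n * v n)) = 1 - (v n) ^ 4 := by ring
  rw [e]

lemma d_mu : D Zab (fun v => Mu (v 0)) := by
  unfold Mu
  refine DM.ex (DM.ex ?_)
  exact DM.and (app1 d_unit (tv 1)) (DM.and (d_u4 1) (DM.and (app1 d_unit (tv 0)) (DM.and (d_u4 0)
    (DM.term (tv 2) (tM (tv 1) (tv 0))))))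

lemma d_muk (k : ℕ) : D Zab (fun v => Mu (v k)) := app1 d_mu (tv k)

lemma d_dz : D Zab (fun v => DZ (v 0)) := by
  unfold DZ
  refine DM.all (DM.imp (d_muk 0) (DM.ex (DM.and (d_muk 0) ?_)))
  -- variables: η = 0, ζ = 1, x = 2
  refine DM.iff (R := fun _ v => ∃ c, v 2 * (1 + -(v 1)) + -(1 + -(v 0)) = ((1 + -(v 1)) * (1 + -(v 1))) * c) (fun i v => ?_)
    (DM.ex (DM.term (tA (tM (tv 3) (tA t1 (tN (tv 2)))) (tN (tA t1 (tN (tv 1)))))
      (tM (tM (tA t1 (tN (tv 2))) (tA t1 (tN (tv 2)))) (tv 0))))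
  have e1 : v 2 * (1 + -(v 1)) + -(1 + -(v 0)) = v 2 * (1 - v 1) - (1 - v 0) := by ring
  have e2 : (1 + -(v 1)) * (1 + -(v 1)) = (1 - v 1) ^ 2 := by ring
  rw [e1, e2]
  rfl

lemma d_dzk (k : ℕ) : D Zab (fun v => DZ (v k)) := app1 d_dz (tv k)

/-- Bezout condition for two terms -/
lemma d_bez (s t : Language.ring.Term (Empty ⊕ ℕ)) : D Zab (fun v => ∃ u w : Zab,
    u * (s.realize (Sum.elim (par Zab ()) v)) + w * (t.realize (Sum.elim (par Zab ()) v)) = 1) := by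
  have h : D Zab (fun v => ∃ u w : Zab, u * v 0 + w * v 1 = 1) := by
    refine DM.ex (DM.ex ?_)
    exact DM.term (tA (tM (tv 1) (tv 2)) (tM (tv 0) (tv 3))) t1
  have h3 := dm_sub (O := Zab) (R := fun b v => ∃ u w : Zab, u * (s.realize (Sum.elim (par Zab ()) v)) + w * b = 1) ?_ t
  · exact h3
  · have h4 := dm_sub (O := Zab) (R := fun a v => ∃ u w : Zab, u * a + w * v 0 = 1) h (s.relabel (Sum.map id (fun n => n + 1)))
    refine DM.iff (fun i v => ?_) h4
    beta_reduce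
    rw [Term.realize_relabel]
    have : Sum.elim (par Zab ()) v ∘ Sum.map id (fun n => n + 1) = Sum.elim (par Zab ()) (fun n => v (n+1)) := by
      funext s; rcases s with e | n
      · exact e.elim
      · rfl
    rw [this]

lemma d_rd : D Zab (fun v => RD (v 0)) := by
  unfold RD
  refine DM.ex (DM.ex (DM.and (d_muk 1) (DM.and (DM.term (tM (tv 1) (tv 0)) t1) (DM.ex (DM.and (d_dzk 0)
    (DM.and (DM.not (DM.term (tv 0) t0)) (DM.all (DM.imp (d_dzk 0) (DM.imp (d_bez (tv 0) (tv 1)) (DM.imp ?_ ?_))))))))))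
  · -- variables: p = 0, D = 1, w = 2, ζ = 3, x = 4
    refine DM.ex (DM.and (d_dzk 0) (DM.not ?_))
    refine DM.iff (fun i v => ?_) (d_bez (tv 1) (tA (tA (tv 4) (tv 3)) (tN (tv 0))))
    show (∃ u w : Zab, u * v 1 + w * ((v 4 + v 3) + -(v 0)) = 1) ↔ ∃ u w : Zab, u * v 1 + w * ((v 4 + v 3) - v 0) = 1
    rw [sub_eq_add_neg]
  · refine DM.ex (DM.and (d_dzk 0) (DM.not ?_))
    refine DM.iff (fun i v => ?_) (d_bez (tv 1) (tA (tv 5) (tN (tv 0))))
    show (∃ u w : Zab, u * v 1 + w * (v 5 + -(v 0)) = 1) ↔ ∃ u w : Zab, u * v 1 + w * (v 5 - v 0) = 1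
    rw [sub_eq_add_neg]

theorem int_definable : D Zab (fun v => ∃ n : ℤ, v 0 = n) :=
  DM.iff (fun _ v => dz_iff (v 0)) d_dz

theorem real_definable : D Zab (fun v => (inc (v 0)).im = 0) :=
  DM.iff (fun _ v => rd_iff (v 0)) d_rd

theorem zab_undecidable : ¬ Pool.Agent.H68.ZA.T967.TR.DecidableTheory Zab :=
  Df.undecidable (d_nat_of_int int_definable)

end Pool.Agent.H68.ZA
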