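import Pool.Agent.H68.ZA.LE1
import Pool.Agent.H68.ZA.Zab6

set_option autoImplicit false

/-! Transfer of definability from `𝓞 ℚ^ab` to the subring of `ℂ`, and definability of complex
conjugation. -/

namespace Pool.Agent.H68.ZA

open FirstOrder FirstOrder.Language
open Pool.Agent.H68.ZA.T967.ArithDef Pool.Agent.H68.ZA.T967.ModelDef
open Df

attribute [local instance] Df.strO

/-- `ℚ^ab` as a subfield. -/
theorem mem_qab (z : ℂ) : z ∈ Qab ↔ z ∈ Subfield.closure {z : ℂ | ∃ n : ℕ, 0 < n ∧ z ^ n = 1} := by
  constructor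
  · intro hz
    unfold Qab at hz
    induction hz using IntermediateField.adjoin_induction with
    | mem x hx =>
      obtain ⟨n, hn, hx⟩ := hx
      exact Subfield.subset_closure ⟨n, Nat.pos_of_ne_zero hn, hx⟩
    | algebraMap q => 
      rw [eq_ratCast]
      exact SubfieldClass.ratCast_mem _ q
    | add x y _ _ h1 h2 => exact add_mem h1 h2
    | inv x _ h1 => exact inv_mem h1
    | mul x y _ _ h1 h2 => exact mul_mem h1 h2
  · intro hz
    have h : Subfield.closure {z : ℂ | ∃ n : ℕ, 0 < n ∧ z ^ n = 1} ≤ Qab.toSubfield := by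
      rw [Subfield.closure_le]
      rintro x ⟨n, hn, hx⟩
      exact root_mem hn.ne' hx
    exact h hz

/-- The two descriptions of the ring of abelian integers agree. -/
noncomputable def equivZab (A : Subring ℂ) (hA : A = (integralClosure ℤ ℂ).toSubring ⊓
          (Subfield.closure {z : ℂ | ∃ n : ℕ, 0 < n ∧ z ^ n = 1}).toSubring) : Zab ≃+* A := by
  have hm : ∀ x : Zab, ((x : Qab) : ℂ) ∈ A := by
    intro x
    rw [hA]
    refine ⟨?_, (mem_qab _).1 (x : Qab).2⟩
    exact (x.2 : IsIntegral ℤ (x : Qab)).map (Qab.val.restrictScalars ℤ)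
  refine RingEquiv.ofBijective (((Qab.val : Qab →+* ℂ).comp (algebraMap Zab Qab)).codRestrict A hm) ⟨?_, ?_⟩
  · intro x y hxy
    have h := congrArg (fun z : A => (z : ℂ)) hxy
    exact Subtype.ext (Subtype.ext h)
  · rintro ⟨z, hz⟩
    have hz' := hz
    rw [hA] at hz'
    obtain ⟨h1, h2⟩ := hz'
    have h3 : z ∈ Qab := (mem_qab z).2 h2
    have h4 : IsIntegral ℤ (⟨z, h3⟩ : Qab) :=
      (isIntegral_algHom_iff (Qab.val.restrictScalars ℤ) (Subtype.val_injective)).1 h1
    exact ⟨⟨⟨z, h3⟩, h4⟩, Subtype.ext rfl⟩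

theorem undec :
    ∀ A : Subring ℂ,
      A = (integralClosure ℤ ℂ).toSubring ⊓
          (Subfield.closure {z : ℂ | ∃ n : ℕ, 0 < n ∧ z ^ n = 1}).toSubring →
      ∀ e : (Σ i, FirstOrder.Language.ring.Functions i) → ℕ, Function.Injective e →
        ¬ ComputablePred (fun n : ℕ =>
          ∃ φ : FirstOrder.Language.ring.Sentence,
            Encodable.encode
                (φ.listEncode.map
                  (Sum.map
                    (fun t => (⟨t.1, t.2.listEncode.map (Sum.map id e)⟩ :
                      Σ k : ℕ, List ((Empty ⊕ Fin k) ⊕ ℕ)))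
                    (Sum.map (fun r => r.1) id))) = n ∧
            @FirstOrder.Language.Sentence.Realize FirstOrder.Language.ring ↥A
              (FirstOrder.Ring.compatibleRingOfRing ↥A).toStructure φ) := by
  intro A hA e he hc
  refine Pool.Agent.H68.ZA.LE.undecidable_lc
    (Pool.Agent.H68.ZA.Df.d_nat_of_int Pool.Agent.H68.ZA.int_definable) e he ?_
  have h : (fun n : ℕ =>
      ∃ φ : FirstOrder.Language.ring.Sentence,
            Encodable.encode
                (φ.listEncode.map
                  (Sum.map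
                    (fun t => (⟨t.1, t.2.listEncode.map (Sum.map id e)⟩ :
                      Σ k : ℕ, List ((Empty ⊕ Fin k) ⊕ ℕ)))
                    (Sum.map (fun r => r.1) id))) = n ∧
            @FirstOrder.Language.Sentence.Realize FirstOrder.Language.ring ↥A
              (FirstOrder.Ring.compatibleRingOfRing ↥A).toStructure φ) =
      (fun n : ℕ => ∃ φ : FirstOrder.Language.ring.Sentence,
        Encodable.encode (Pool.Agent.H68.ZA.LE.lc e φ) = n ∧
        @FirstOrder.Language.Sentence.Realize FirstOrder.Language.ring Pool.Agent.H68.ZA.Zab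
              (FirstOrder.Ring.compatibleRingOfRing _).toStructure φ) := by
    funext n
    apply propext
    constructor
    · rintro ⟨φ, h1, h2⟩
      exact ⟨φ, h1, (Pool.Agent.H68.ZA.LE.realize_iff_of_ringEquiv (equivZab A hA) φ).2 h2⟩
    · rintro ⟨φ, h1, h2⟩
      exact ⟨φ, h1, (Pool.Agent.H68.ZA.LE.realize_iff_of_ringEquiv (equivZab A hA) φ).1 h2⟩
  rw [h] at hc
  exact hc



/-- `y` is the complex conjugate of `x` -/
def CJ (x y : Zab) : Prop := ∃ j : Zab, j * j = -1 ∧ RD (x + y) ∧ RD (j * (x + -y))

theorem cj_iff (x y : Zab) : CJ x y ↔ cR x = y := by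
  have h2 : (2 : Zab) ≠ 0 := two_ne_zero
  constructor
  · rintro ⟨j, hj, h1, h3⟩
    have h1' : cR (x + y) = x + y := real_of_rd h1
    have h3' : cR (j * (x + -y)) = j * (x + -y) := real_of_rd h3
    have hcj : cR j = -j := by
      have e : (j - iR) * (j + iR) = 0 := by linear_combination hj - iR_sq
      rcases mul_eq_zero.1 e with h | h
      · rw [sub_eq_zero.1 h]; exact cR_iR
      · rw [eq_neg_of_add_eq_zero_left h, map_neg, cR_iR]
    rw [map_add] at h1'
    rw [map_mul, map_add, map_neg, hcj] at h3'
    have h4 : cR x - cR y = y - x := by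
      linear_combination j * h3' + (cR x - cR y + x - y) * hj
    have h5 : 2 * (cR x - y) = 0 := by linear_combination h1' + h4
    rcases mul_eq_zero.1 h5 with h | h
    · exact absurd h h2
    · exact sub_eq_zero.1 h
  · rintro rfl
    refine ⟨iR, iR_sq, rd_of_real ?_, rd_of_real ?_⟩
    · rw [map_add, cR_cR, add_comm]
    · rw [map_mul, map_add, map_neg, cR_cR, cR_iR]; ring

theorem d_cj : D Zab (fun v => CJ (v 0) (v 1)) := by
  unfold CJ
  refine DM.ex (DM.and (DM.term (tM (tv 0) (tv 0)) (tN t1)) (DM.and ?_ ?_))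
  · exact app1 d_rd (tA (tv 1) (tv 2))
  · exact app1 d_rd (tM (tv 0) (tA (tv 1) (tN (tv 2))))

section
variable {R S : Type} [CommRing R] [CommRing S]

/-- transfer of definability along an isomorphism -/
theorem transferD (f : R ≃+* S) {P : (ℕ → S) → Prop} (h : D S P) :
    D R (fun v => P (fun n => f (v n))) := by
  obtain ⟨φ, hφ⟩ := h
  refine ⟨φ, fun i v => ?_⟩
  rw [← hφ () (fun n => f (v n))]
  letI : FirstOrder.Ring.CompatibleRing R := FirstOrder.Ring.compatibleRingOfRing R
  letI : FirstOrder.Ring.CompatibleRing S := FirstOrder.Ring.compatibleRingOfRing S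
  have h1 := StrongHomClass.realize_formula (FirstOrder.Ring.languageEquivEquivRingEquiv.symm f) φ
    (v := Sum.elim (par R ()) v)
  have h2 : (FirstOrder.Ring.languageEquivEquivRingEquiv.symm f) ∘ (Sum.elim (par R ()) v)
      = Sum.elim (par S ()) (fun n => f (v n)) := by
    funext s
    rcases s with e | n
    · exact e.elim
    · rfl
  rw [h2] at h1
  exact h1.symm

/-- Definability of binary relations implies definability in the sense of Mathlib. -/
theorem definable2_of_D {P : R → R → Prop} (h : D R (fun v => P (v 0) (v 1))) :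
    Set.Definable₂ (∅ : Set R) Language.ring {x : R × R | P x.1 x.2} := by
  obtain ⟨φ, hφ⟩ := h
  let g : Empty ⊕ ℕ → Fin 2 := fun s => match s with
    | .inl e => e.elim
    | .inr 0 => 0
    | .inr (_ + 1) => 1
  have key : (∅ : Set R).Definable Language.ring {x : Fin 2 → R | P (x 0) (x 1)} := by
    rw [Set.empty_definable_iff]
    refine ⟨φ.relabel g, ?_⟩
    ext x
    rw [Set.mem_ofPred_eq, Set.mem_ofPred_eq, Formula.realize_relabel]
    have h1 : x ∘ g = Sum.elim (par R ()) (fun n => x (g (Sum.inr n))) := by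
      funext s
      rcases s with e | k
      · exact e.elim
      · rfl
    rw [h1]
    exact (hφ () (fun n => x (g (Sum.inr n)))).symm
  exact key

end

end Pool.Agent.H68.ZA
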