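import Pool.Agent.H68.ZA.Def1
set_option autoImplicit false

/-! Undecidability of rings with a definable copy of the naturals, for the numbering of sentences
through Mathlib's list encoding of formulas. -/

namespace Pool.Agent.H68.ZA.LE

open FirstOrder FirstOrder.Language
open Pool.Agent.H68.ZA.T967.ArithDef Pool.Agent.H68.ZA.T967.ModelDef
open Pool.Agent.H68.ZA.Df

attribute [local instance] Df.strO

/-- the list of numbers of a sentence -/
def lc (e : (Σ i, Language.ring.Functions i) → ℕ) {k : ℕ} (φ : Language.ring.BoundedFormula Empty k) :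
    List ((Σ k : ℕ, List ((Empty ⊕ Fin k) ⊕ ℕ)) ⊕ (ℕ ⊕ ℕ)) :=
  φ.listEncode.map
    (Sum.map
      (fun t => (⟨t.1, t.2.listEncode.map (Sum.map id e)⟩ :
        Σ k : ℕ, List ((Empty ⊕ Fin k) ⊕ ℕ)))
      (Sum.map (fun r => r.1) id))

theorem lc_injective (e : (Σ i, Language.ring.Functions i) → ℕ) (he : Function.Injective e)
    (φ ψ : Language.ring.Sentence) (h : Encodable.encode (lc e φ) = Encodable.encode (lc e ψ)) : φ = ψ := by
  have h1 : lc e φ = lc e ψ := Encodable.encode_injective h
  unfold lc at h1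
  have h2 : Function.Injective (Sum.map
      (fun t : (Σ k, Language.ring.Term (Empty ⊕ Fin k)) => (⟨t.1, t.2.listEncode.map (Sum.map id e)⟩ :
        Σ k : ℕ, List ((Empty ⊕ Fin k) ⊕ ℕ)))
      (Sum.map (fun r : (Σ n, Language.ring.Relations n) => r.1) (id : ℕ → ℕ))) := by
    refine Function.Injective.sumMap ?_ (Function.Injective.sumMap ?_ Function.injective_id)
    · rintro ⟨k, t⟩ ⟨l, s⟩ hst
      simp only [Sigma.mk.injEq] at hst
      obtain ⟨rfl, hst⟩ := hst
      have hst' := eq_of_heq hst
      have h3 : Function.Injective (Sum.map (id : (Empty ⊕ Fin k) → (Empty ⊕ Fin k)) e) :=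
        Function.Injective.sumMap Function.injective_id he
      rw [Term.listEncode_injective (List.map_injective_iff.2 h3 hst')]
    · rintro ⟨n, r⟩ _ _
      exact Empty.elim r
  have h3 := List.map_injective_iff.2 h2 h1
  have h4 := BoundedFormula.listEncode_sigma_injective (L := Language.ring) (α := Empty)
    (a₁ := ⟨0, φ⟩) (a₂ := ⟨0, ψ⟩) h3
  simpa using h4

/-- the list of a numeral -/
def ln (e : (Σ i, Language.ring.Functions i) → ℕ) (n : ℕ) : List ((Empty ⊕ Fin 1) ⊕ ℕ) :=
  (num n).listEncode.map (Sum.map id e)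

theorem ln_zero (e : (Σ i, Language.ring.Functions i) → ℕ) :
    ln e 0 = [Sum.inr (e ⟨0, ringFunc.zero⟩)] := by
  simp [ln, num, Term.listEncode]

theorem ln_succ (e : (Σ i, Language.ring.Functions i) → ℕ) (n : ℕ) :
    ln e (n + 1) = Sum.inr (e ⟨2, ringFunc.add⟩) :: (ln e n ++ [Sum.inr (e ⟨0, ringFunc.one⟩)]) := by
  simp [ln, num, Term.listEncode, List.finRange_succ]

theorem primrec_ln (e : (Σ i, Language.ring.Functions i) → ℕ) : Primrec (ln e) := by
  have h : (ln e) = (fun n => Nat.rec (ln e 0)
      (fun _ c => Sum.inr (e ⟨2, ringFunc.add⟩) :: (c ++ [Sum.inr (e ⟨0, ringFunc.one⟩)])) n) := by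
    funext n
    induction n with
    | zero => rfl
    | succ n ih =>
      rw [ln_succ, ih]
  rw [h]
  refine Primrec.nat_rec₁ _ ?_
  exact Primrec.list_cons.comp (Primrec.const _)
    (Primrec.list_append.comp Primrec.snd (Primrec.const _))

theorem primrec_lc_sig (e : (Σ i, Language.ring.Functions i) → ℕ)
    (Ψ : Language.ring.BoundedFormula Empty 1) :
    Primrec (fun n => Encodable.encode (lc e (sig Ψ n))) := by
  have h : (fun n => Encodable.encode (lc e (sig Ψ n))) = (fun n =>
      Nat.succ (Nat.pair (2 * (2 * 1 + 1) + 1)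
      (Nat.succ (Nat.pair (2 * (2 * 0 + 1) + 1)
      (Nat.succ (Nat.pair (2 * Nat.pair 1 (Encodable.encode
        (((Term.var (Sum.inr 0) : Language.ring.Term (Empty ⊕ Fin 1)).listEncode.map (Sum.map id e)))))
      (Nat.succ (Nat.pair (2 * Nat.pair 1 (Encodable.encode (ln e n)))
        (Encodable.encode (lc e Ψ))))))))))  := by
    funext n
    rfl
  rw [h]
  refine Primrec.succ.comp (Primrec₂.natPair.comp (Primrec.const _)
    (Primrec.succ.comp (Primrec₂.natPair.comp (Primrec.const _)
    (Primrec.succ.comp (Primrec₂.natPair.comp (Primrec.const _)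
    (Primrec.succ.comp (Primrec₂.natPair.comp ?_ (Primrec.const _))))))))
  exact Primrec.nat_mul.comp (Primrec.const _) (Primrec₂.natPair.comp (Primrec.const _)
    (Primrec.encode.comp (primrec_ln e)))

/-- A ring of characteristic zero in which the naturals are definable has an undecidable theory. -/
theorem undecidable_lc {O : Type} [CommRing O] [CharZero O] (h : D O (fun v => ∃ n : ℕ, v 0 = n))
    (e : (Σ i, Language.ring.Functions i) → ℕ) (he : Function.Injective e) :
    ¬ ComputablePred (fun n : ℕ => ∃ φ : Language.ring.Sentence,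
      Encodable.encode (lc e φ) = n ∧ O ⊨ φ) := by
  intro hc
  obtain ⟨Ψ, hΨ⟩ := exists_formula h
  apply halt_not_computable
  obtain ⟨f, hf, hfe⟩ := ComputablePred.computable_iff.1 hc
  refine ComputablePred.computable_iff.2 ⟨fun n => f (Encodable.encode (lc e (sig Ψ n))),
    hf.comp (primrec_lc_sig e Ψ).to_comp, ?_⟩
  funext n
  have h1 := congrFun hfe (Encodable.encode (lc e (sig Ψ n)))
  refine Eq.trans ?_ h1
  apply propext
  rw [← hΨ n]
  constructor
  · intro hh
    exact ⟨sig Ψ n, rfl, hh⟩
  · rintro ⟨ψ, hψ, hh⟩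
    rw [← lc_injective e he _ _ hψ]
    exact hh

/-- Isomorphic rings satisfy the same sentences. -/
theorem realize_iff_of_ringEquiv {R S : Type} [CommRing R] [CommRing S] (f : R ≃+* S)
    (φ : Language.ring.Sentence) : R ⊨ φ ↔ S ⊨ φ := by
  letI : FirstOrder.Ring.CompatibleRing R := FirstOrder.Ring.compatibleRingOfRing R
  letI : FirstOrder.Ring.CompatibleRing S := FirstOrder.Ring.compatibleRingOfRing S
  exact StrongHomClass.realize_sentence (FirstOrder.Ring.languageEquivEquivRingEquiv.symm f) φ

end Pool.Agent.H68.ZA.LE
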