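import Pool.Agent.H68.ZA.Zab1
set_option autoImplicit false

/-! Embeddings of the ring `ℤ^ab` of abelian algebraic integers. -/

namespace Pool.Agent.H68.ZA

open Polynomial NumberField

/-- The ring `ℤ^ab` of integers of `ℚ^ab`. -/
abbrev Zab : Type := 𝓞 Qab

/-- The inclusion of `ℤ^ab` in `ℂ`. -/
noncomputable def inc : Zab →+* ℂ := (algebraMap Qab ℂ).comp (algebraMap (𝓞 Qab) Qab)

lemma inc_apply (x : Zab) : inc x = ((x : Qab) : ℂ) := rfl

lemma inc_inj : Function.Injective inc := by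
  intro x y h
  rw [inc_apply, inc_apply] at h
  exact RingOfIntegers.ext (Subtype.ext h)

lemma inc_int (x : Zab) : IsIntegral ℤ (inc x) := by
  have h := RingOfIntegers.isIntegral_coe x
  exact h.map (algebraMap Qab ℂ).toIntAlgHom

/-- An element of `ℤ^ab` from a complex number. -/
noncomputable def mk (z : ℂ) (h1 : z ∈ Qab) (h2 : IsIntegral ℤ z) : Zab :=
  ⟨⟨z, h1⟩, (isIntegral_algebraMap_iff (A := Qab) (B := ℂ) (R := ℤ) (x := ⟨z, h1⟩) Subtype.val_injective).1 h2⟩

lemma inc_mk (z : ℂ) (h1 : z ∈ Qab) (h2 : IsIntegral ℤ z) : inc (mk z h1 h2) = z := rfl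

/-- The root of unity `exp (2 π i / n)` in `ℤ^ab`. -/
noncomputable def zR (n : ℕ) (hn : n ≠ 0) : Zab :=
  mk (zt n) (zt_mem n hn) ((zt_prim n hn).isIntegral (Nat.pos_of_ne_zero hn))

lemma inc_zR (n : ℕ) (hn : n ≠ 0) : inc (zR n hn) = zt n := rfl

lemma zR_prim (n : ℕ) (hn : n ≠ 0) : IsPrimitiveRoot (zR n hn) n := by
  refine IsPrimitiveRoot.of_map_of_injective (f := inc) ?_ inc_inj
  exact zt_prim n hn

lemma rep (x : Zab) : ∃ (n : ℕ) (hn : n ≠ 0) (D : ℕ) (g : ℤ[X]), D ≠ 0 ∧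
    (D : Zab) * x = aeval (zR n hn) g := by
  obtain ⟨n, D, g, hn, hD, h⟩ := exists_rep (x : Qab).2
  refine ⟨n, hn, D, g, hD, inc_inj ?_⟩
  rw [map_mul, map_natCast, inc_apply, h]
  have h2 : inc (aeval (zR n hn) g) = inc.toIntAlgHom (aeval (zR n hn) g) := rfl
  rw [h2, ← aeval_algHom_apply]
  rfl

lemma hom_rep (φ : Zab →+* ℂ) (x : Zab) (g : ℤ[X]) : φ (aeval x g) = aeval (φ x) g := by
  have h2 : φ (aeval x g) = φ.toIntAlgHom (aeval x g) := rfl
  rw [h2, ← aeval_algHom_apply]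
  rfl

lemma conj_mem {x : ℂ} (hx : x ∈ Qab) : (starRingEnd ℂ) x ∈ Qab := by
  unfold Qab at hx ⊢
  induction hx using IntermediateField.adjoin_induction with
  | mem x hx =>
    obtain ⟨n, hn, hx⟩ := hx
    refine IntermediateField.subset_adjoin ℚ _ ⟨n, hn, ?_⟩
    rw [← map_pow, hx, map_one]
  | algebraMap q =>
    have : (starRingEnd ℂ) (algebraMap ℚ ℂ q) = algebraMap ℚ ℂ q := by
      rw [eq_ratCast, map_ratCast]
    rw [this]
    exact algebraMap_mem _ q
  | add x y _ _ h1 h2 => rw [map_add]; exact add_mem h1 h2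
  | inv x _ h1 => rw [map_inv₀]; exact inv_mem h1
  | mul x y _ _ h1 h2 => rw [map_mul]; exact mul_mem h1 h2

lemma inc_mem (x : Zab) : inc x ∈ Qab := (x : Qab).2

lemma conj_int (x : Zab) : IsIntegral ℤ ((starRingEnd ℂ) (inc x)) :=
  (inc_int x).map (starRingEnd ℂ).toIntAlgHom

/-- Complex conjugation on `ℤ^ab`, as a function. -/
noncomputable def cF (x : Zab) : Zab := mk ((starRingEnd ℂ) (inc x)) (conj_mem (inc_mem x)) (conj_int x)

lemma inc_cF (x : Zab) : inc (cF x) = (starRingEnd ℂ) (inc x) := rfl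

/-- Complex conjugation on `ℤ^ab`. -/
noncomputable def cR : Zab →+* Zab where
  toFun := cF
  map_one' := inc_inj (by rw [inc_cF, map_one, map_one])
  map_zero' := inc_inj (by rw [inc_cF, map_zero, map_zero])
  map_mul' x y := inc_inj (by rw [map_mul, inc_cF, inc_cF, inc_cF, map_mul, map_mul])
  map_add' x y := inc_inj (by rw [map_add, inc_cF, inc_cF, inc_cF, map_add, map_add])

lemma inc_cR (x : Zab) : inc (cR x) = (starRingEnd ℂ) (inc x) := rfl

lemma cR_cR (x : Zab) : cR (cR x) = x := inc_inj (by rw [inc_cR, inc_cR, Complex.conj_conj])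

lemma root_norm {z : ℂ} {n : ℕ} (hn : n ≠ 0) (hz : z ^ n = 1) : ‖z‖ = 1 := by
  have h : ‖z‖ ^ n = 1 := by rw [← norm_pow, hz, norm_one]
  exact (pow_eq_one_iff_of_nonneg (norm_nonneg z) hn).1 h

lemma mul_conj_of_norm {z : ℂ} (hz : ‖z‖ = 1) : z * (starRingEnd ℂ) z = 1 := by
  rw [Complex.mul_conj, Complex.normSq_eq_norm_sq, hz]
  norm_num

lemma cR_root (x : Zab) (n : ℕ) (hn : n ≠ 0) (hx : x ^ n = 1) : x * cR x = 1 := by
  apply inc_inj
  rw [map_mul, inc_cR, map_one]
  refine mul_conj_of_norm (root_norm hn ?_)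
  rw [← map_pow, hx, map_one]

lemma hom_cR (φ : Zab →+* ℂ) (x : Zab) : φ (cR x) = (starRingEnd ℂ) (φ x) := by
  obtain ⟨n, hn, D, g, hD, h⟩ := rep x
  have h1 : (D : ℂ) * φ x = aeval (φ (zR n hn)) g := by
    rw [← hom_rep, ← h, map_mul, map_natCast]
  have h2 : (D : ℂ) * φ (cR x) = aeval (φ (cR (zR n hn))) g := by
    rw [← hom_rep]
    have h3 : cR (aeval (zR n hn) g) = aeval (cR (zR n hn)) g := by
      have h2 : cR (aeval (zR n hn) g) = cR.toIntAlgHom (aeval (zR n hn) g) := rfl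
      rw [h2, ← aeval_algHom_apply]
      rfl
    rw [← h3, ← h, map_mul, map_mul, map_natCast, map_natCast]
  have hz : (zR n hn) ^ n = 1 := (zR_prim n hn).pow_eq_one
  have h4 : φ (cR (zR n hn)) = (starRingEnd ℂ) (φ (zR n hn)) := by
    have h5 : φ (zR n hn) * φ (cR (zR n hn)) = 1 := by
      rw [← map_mul, cR_root _ n hn hz, map_one]
    have h6 : φ (zR n hn) * (starRingEnd ℂ) (φ (zR n hn)) = 1 := by
      refine mul_conj_of_norm (root_norm hn ?_)
      rw [← map_pow, hz, map_one]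
    have h7 : φ (zR n hn) ≠ 0 := left_ne_zero_of_mul_eq_one h5
    exact mul_left_cancel₀ h7 (h5.trans h6.symm)
  have hD' : (D : ℂ) ≠ 0 := Nat.cast_ne_zero.2 hD
  apply mul_left_cancel₀ hD'
  rw [h2, h4]
  have h8 : aeval ((starRingEnd ℂ) (φ (zR n hn))) g = (starRingEnd ℂ) (aeval (φ (zR n hn)) g) := by
    have h2 : (starRingEnd ℂ) (aeval (φ (zR n hn)) g) = (starRingEnd ℂ).toIntAlgHom (aeval (φ (zR n hn)) g) := rfl
    rw [h2, ← aeval_algHom_apply]
    rfl
  rw [h8, ← h1, map_mul, Complex.conj_natCast]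

instance : Algebra.IsAlgebraic ℚ Qab := by
  constructor
  intro x
  obtain ⟨n, hn, h⟩ := exists_mem x.2
  have h1 : IsIntegral ℚ (x : ℂ) := by
    have : FiniteDimensional ℚ (IntermediateField.adjoin ℚ {zt n}) :=
      IntermediateField.adjoin.finiteDimensional (zt_isIntegral n hn)
    have h2 : IsIntegral ℚ (⟨(x : ℂ), h⟩ : IntermediateField.adjoin ℚ {zt n}) := Algebra.IsIntegral.isIntegral _
    exact h2.map (IntermediateField.val _)
  exact ((isIntegral_algebraMap_iff (A := Qab) (B := ℂ) (R := ℚ) (x := x) Subtype.val_injective).1 h1).isAlgebraic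

/-- every root of the minimal polynomial is the image under an embedding -/
lemma exists_hom (x : Zab) (z : ℂ) (hz : aeval z (minpoly ℚ (x : Qab)) = 0) : ∃ φ : Zab →+* ℂ, φ x = z := by
  have h1 : z ∈ (minpoly ℚ (x : Qab)).rootSet ℂ := by
    rw [mem_rootSet]
    exact ⟨minpoly.ne_zero (Algebra.IsAlgebraic.isAlgebraic (x : Qab)).isIntegral, hz⟩
  rw [← Algebra.IsAlgebraic.range_eval_eq_rootSet_minpoly (F := ℚ) (K := Qab) ℂ (x : Qab)] at h1
  obtain ⟨ψ, hψ⟩ := h1
  exact ⟨(ψ : Qab →+* ℂ).comp (algebraMap (𝓞 Qab) Qab), hψ⟩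

lemma minpoly_map (x : Zab) : minpoly ℚ (x : Qab) = (minpoly ℤ (x : Qab)).map (algebraMap ℤ ℚ) :=
  minpoly.isIntegrallyClosed_eq_field_fractions' ℚ (RingOfIntegers.isIntegral_coe x)

lemma small (x : Zab) (h : ∀ φ : Zab →+* ℂ, ‖φ x‖ < 1) : x = 0 := by
  have hint := RingOfIntegers.isIntegral_coe x
  set P := minpoly ℤ (x : Qab) with hP
  have hmon : P.Monic := minpoly.monic hint
  set Q := P.map (algebraMap ℤ ℂ) with hQ
  have hQm : Q.Monic := hmon.map _
  have hQd : Q.natDegree = P.natDegree := hmon.natDegree_map _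
  have hroots : ∀ z ∈ Q.roots, ‖z‖ < 1 := by
    intro z hz
    have hz2 : Q.IsRoot z := isRoot_of_mem_roots hz
    obtain ⟨φ, hφ⟩ := exists_hom x z (by
      rw [minpoly_map, aeval_map_algebraMap, ← hP]
      rw [IsRoot, hQ, eval_map_algebraMap] at hz2
      exact hz2)
    rw [← hφ]
    exact h φ
  have hprod : Q.coeff 0 = (-1) ^ Q.natDegree * Q.roots.prod :=
    (IsAlgClosed.splits Q).coeff_zero_eq_prod_roots_of_monic hQm
  have hdeg : Q.natDegree ≠ 0 := by
    rw [hQd]
    exact (minpoly.natDegree_pos hint).ne'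
  have hne : Q.roots ≠ 0 := by
    intro h0
    apply hdeg
    rw [(IsAlgClosed.splits Q).natDegree_eq_card_roots, h0]
    rfl
  have hlt : ‖Q.coeff 0‖ < 1 := by
    rw [hprod, norm_mul, norm_pow, norm_neg, norm_one, one_pow, one_mul]
    have key : ∀ s : Multiset ℂ, (∀ z ∈ s, ‖z‖ < 1) → s ≠ 0 → ‖s.prod‖ < 1 := by
      intro s
      induction s using Multiset.induction with
      | empty => intro _ h; exact absurd rfl h
      | cons a s ih =>
        intro hs _
        rw [Multiset.prod_cons, norm_mul]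
        have ha := hs a (Multiset.mem_cons_self a s)
        by_cases h0 : s = 0
        · subst h0; simpa using ha
        · have := ih (fun z hz => hs z (Multiset.mem_cons_of_mem hz)) h0
          calc ‖a‖ * ‖s.prod‖ ≤ 1 * ‖s.prod‖ := by gcongr
            _ < 1 := by linarith
    exact key _ hroots hne
  have hc0 : P.coeff 0 = 0 := by
    rw [hQ, coeff_map, eq_intCast, Complex.norm_intCast] at hlt
    have : |P.coeff 0| < 1 := by exact_mod_cast hlt
    exact Int.abs_lt_one_iff.1 this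
  have hc1 : (minpoly ℚ (x : Qab)).coeff 0 = 0 := by
    rw [minpoly_map, coeff_map, ← hP, hc0, map_zero]
  rw [minpoly.coeff_zero_eq_zero (Algebra.IsAlgebraic.isAlgebraic (x : Qab)).isIntegral] at hc1
  exact RingOfIntegers.ext hc1

lemma kronecker (x : Zab) (h : ∀ φ : Zab →+* ℂ, ‖φ x‖ = 1) : ∃ n : ℕ, n ≠ 0 ∧ x ^ n = 1 := by
  have hint := RingOfIntegers.isIntegral_coe x
  have hintQ : IsIntegral ℚ (x : Qab) := (Algebra.IsAlgebraic.isAlgebraic (x : Qab)).isIntegral
  have : FiniteDimensional ℚ (IntermediateField.adjoin ℚ {(x : Qab)}) :=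
    IntermediateField.adjoin.finiteDimensional hintQ
  have : NumberField (IntermediateField.adjoin ℚ {(x : Qab)}) := ⟨⟩
  set g := IntermediateField.AdjoinSimple.gen ℚ (x : Qab) with hg
  have hgi : IsIntegral ℤ g := (isIntegral_algebraMap_iff (A := IntermediateField.adjoin ℚ {(x : Qab)})
    (B := Qab) (R := ℤ) (x := g) Subtype.val_injective).1 (by
      rw [hg, IntermediateField.AdjoinSimple.algebraMap_gen]; exact hint)
  obtain ⟨n, hn, h1⟩ := NumberField.Embeddings.pow_eq_one_of_norm_eq_one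
    (K := IntermediateField.adjoin ℚ {(x : Qab)}) (A := ℂ) hgi (by
      intro φ
      obtain ⟨ψ, hψ⟩ := exists_hom x (φ g) (by
        have h2 : aeval g (minpoly ℚ (x : Qab)) = 0 := by
          rw [← IntermediateField.minpoly_gen ℚ (x : Qab)]
          exact minpoly.aeval _ _
        have h3 : aeval (φ.toRatAlgHom g) (minpoly ℚ (x : Qab)) = 0 := by
          rw [aeval_algHom_apply, h2, map_zero]
        exact h3)
      rw [← hψ]
      exact h ψ)
  refine ⟨n, Nat.pos_iff_ne_zero.1 hn, ?_⟩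
  have h4 : (x : Qab) ^ n = 1 := by
    have h5 := congrArg (algebraMap (IntermediateField.adjoin ℚ {(x : Qab)}) Qab) h1
    rw [map_pow, map_one, hg, IntermediateField.AdjoinSimple.algebraMap_gen] at h5
    exact h5
  apply RingOfIntegers.ext
  exact h4

end Pool.Agent.H68.ZA
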