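import Pool.Agent.H68.ZA.Zab3
set_option autoImplicit false

/-! The integers are definable in the ring of abelian algebraic integers. -/

namespace Pool.Agent.H68.ZA

open Polynomial NumberField

lemma one_sub_sq_dvd (ζ : Zab) (a : ℕ) : (1 - ζ) ^ 2 ∣ (a : Zab) * (1 - ζ) - (1 - ζ ^ a) := by
  induction a with
  | zero => simp
  | succ a ih =>
    obtain ⟨c, hc⟩ := ih
    obtain ⟨d, hd⟩ : (1 - ζ) ∣ (1 - ζ ^ a) := by
      have := sub_dvd_pow_sub_pow (1 : Zab) ζ a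
      rwa [one_pow] at this
    refine ⟨c + d, ?_⟩
    push_cast
    linear_combination hc + (1 - ζ) * hd

lemma one_sub_dvd_nat {ζ : Zab} {n : ℕ} (hn : ζ ^ n = 1) (h1 : 1 - ζ ≠ 0) : (1 - ζ) ∣ (n : Zab) := by
  have h := one_sub_sq_dvd ζ n
  rw [hn, sub_self, sub_zero, sq] at h
  exact (mul_dvd_mul_iff_right h1).1 h

/-- The formula defining the integers. -/
def DZ (x : Zab) : Prop := ∀ ζ : Zab, Mu ζ → ∃ η : Zab, Mu η ∧ (1 - ζ) ^ 2 ∣ x * (1 - ζ) - (1 - η)

lemma dz_int (a : ℤ) : DZ (a : Zab) := by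
  intro ζ hζ
  rw [mu_iff] at hζ
  by_cases h1 : 1 - ζ = 0
  · refine ⟨1, (mu_iff 1).2 ⟨1, one_ne_zero, one_pow 1⟩, ?_⟩
    rw [h1]
    simp
  obtain ⟨n, hn, h⟩ := hζ
  obtain ⟨m, hm⟩ : ∃ m : ℕ, (m : ℤ) = a + n * |a| := by
    refine ⟨(a + n * |a|).toNat, Int.toNat_of_nonneg ?_⟩
    have h2 : (1 : ℤ) ≤ n := by exact_mod_cast Nat.one_le_iff_ne_zero.2 hn
    have h3 := neg_abs_le a
    nlinarith [abs_nonneg a]
  refine ⟨ζ ^ m, (mu_iff _).2 (IsRU.pow ⟨n, hn, h⟩ m), ?_⟩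
  have h2 := one_sub_sq_dvd ζ m
  have h3 : (1 - ζ) ^ 2 ∣ (n : Zab) * (1 - ζ) := by
    rw [sq]
    exact mul_dvd_mul_right (one_sub_dvd_nat h h1) _
  have h4 : (m : Zab) = (a : Zab) + n * ((|a| : ℤ) : Zab) := by exact_mod_cast congrArg (Int.cast : ℤ → Zab) hm
  have h5 : (a : Zab) * (1 - ζ) - (1 - ζ ^ m) = ((m : Zab) * (1 - ζ) - (1 - ζ ^ m)) - ((|a| : ℤ) : Zab) * ((n : Zab) * (1 - ζ)) := by
    rw [h4]; ring
  rw [h5]
  exact dvd_sub h2 (h3.mul_left _)

/-- Frobenius congruence. -/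
lemma frob (p : ℕ) (hp : p.Prime) (z : Zab) (g : ℤ[X]) :
    (p : Zab) ∣ (aeval z g) ^ p - aeval (z ^ p) g := by
  induction g using Polynomial.induction_on' with
  | add f g hf hg =>
    obtain ⟨r, hr⟩ := exists_add_pow_prime_eq hp (aeval z f) (aeval z g)
    rw [map_add, map_add, hr]
    have h : aeval z f ^ p + aeval z g ^ p + (p : Zab) * aeval z f * aeval z g * r - (aeval (z ^ p) f + aeval (z ^ p) g) =
      (aeval z f ^ p - aeval (z ^ p) f) + (aeval z g ^ p - aeval (z ^ p) g) + (p : Zab) * (aeval z f * aeval z g * r) := by ring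
    rw [h]
    exact dvd_add (dvd_add hf hg) (Dvd.intro _ rfl)
  | monomial n a =>
    rw [aeval_monomial, aeval_monomial, mul_pow, ← pow_mul, ← pow_mul, mul_comm n p, ← sub_mul, eq_intCast]
    apply Dvd.dvd.mul_right
    have h1 : (p : ℤ) ∣ a ^ p - a := by
      have : Fact p.Prime := ⟨hp⟩
      rw [← ZMod.intCast_zmod_eq_zero_iff_dvd, Int.cast_sub, Int.cast_pow, ZMod.pow_card, sub_self]
    obtain ⟨c, hc⟩ := h1
    refine ⟨(c : Zab), ?_⟩
    have := congrArg (Int.cast : ℤ → Zab) hc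
    push_cast at this
    exact this

/-- An element of `ℤ^ab` which is a rational number is an integer. -/
lemma int_of_rat (x : Zab) (q : ℚ) (h : inc x = (q : ℂ)) : ∃ n : ℤ, x = n := by
  have h1 := inc_int x
  rw [h, ← eq_ratCast (algebraMap ℚ ℂ), isIntegral_algebraMap_iff (algebraMap ℚ ℂ).injective] at h1
  obtain ⟨n, hn⟩ := IsIntegrallyClosed.isIntegral_iff.mp h1
  refine ⟨n, inc_inj ?_⟩
  rw [h, map_intCast, ← hn]
  simp

lemma int_dvd {a b : ℤ} (ha : a ≠ 0) (h : (a : Zab) ∣ (b : Zab)) : a ∣ b := by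
  obtain ⟨r, hr⟩ := h
  have h1 := congrArg inc hr
  rw [map_mul, map_intCast, map_intCast] at h1
  have ha' : (a : ℂ) ≠ 0 := Int.cast_ne_zero.2 ha
  obtain ⟨n, hn⟩ := int_of_rat r ((b : ℚ) / a) (by
    push_cast
    rw [h1]
    field_simp)
  refine ⟨n, ?_⟩
  rw [hn] at h1
  rw [map_intCast] at h1
  exact_mod_cast h1

lemma exists_int_mul (z : Zab) (hz : z ≠ 0) : ∃ m : ℤ, m ≠ 0 ∧ z ∣ (m : Zab) := by
  have hint := RingOfIntegers.isIntegral_coe z
  refine ⟨(minpoly ℤ (z : Qab)).coeff 0, ?_, ?_⟩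
  · intro h0
    apply hz
    have hc1 : (minpoly ℚ (z : Qab)).coeff 0 = 0 := by
      rw [minpoly_map, coeff_map, h0, map_zero]
    rw [minpoly.coeff_zero_eq_zero (Algebra.IsAlgebraic.isAlgebraic (z : Qab)).isIntegral] at hc1
    exact RingOfIntegers.ext hc1
  · have h1 : aeval z (minpoly ℤ (z : Qab)) = 0 := by
      apply RingOfIntegers.ext
      have h2 : ((aeval z (minpoly ℤ (z : Qab)) : 𝓞 Qab) : Qab) = aeval (z : Qab) (minpoly ℤ (z : Qab)) := by
        have h2 : ((aeval z (minpoly ℤ (z : Qab)) : 𝓞 Qab) : Qab) = (algebraMap (𝓞 Qab) Qab).toIntAlgHom (aeval z (minpoly ℤ (z : Qab))) := rfl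
        rw [h2, ← aeval_algHom_apply]
        rfl
      rw [h2, minpoly.aeval]
      rfl
    have h3 := sub_dvd_eval_sub z 0 ((minpoly ℤ (z : Qab)).map (algebraMap ℤ Zab))
    rw [sub_zero, eval_map_algebraMap, h1, zero_sub, dvd_neg, ← coeff_zero_eq_eval_zero, coeff_map, eq_intCast] at h3
    exact h3

lemma one_sub_ne {p : ℕ} (hp : p.Prime) : 1 - zR p hp.ne_zero ≠ 0 := by
  intro h
  have h1 : zR p hp.ne_zero = 1 := (sub_eq_zero.1 h).symm
  exact (zR_prim p hp.ne_zero).ne_one hp.one_lt h1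

/-- `(1 - ζ_p)` divides an integer only if `p` does. -/
lemma dvd_of_one_sub {p : ℕ} (hp : p.Prime) {m : ℤ} (h : (1 - zR p hp.ne_zero) ∣ (m : Zab)) : (p : ℤ) ∣ m := by
  have h1 := frob p hp (zR p hp.ne_zero) (1 - X)
  simp only [map_sub, map_one, aeval_X, (zR_prim p hp.ne_zero).pow_eq_one, sub_self, sub_zero] at h1
  have h2 : (p : Zab) ∣ (m : Zab) ^ p := h1.trans (pow_dvd_pow_of_dvd h p)
  have h3 : ((p : ℤ) : Zab) ∣ ((m ^ p : ℤ) : Zab) := by exact_mod_cast h2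
  have h4 := int_dvd (by exact_mod_cast hp.ne_zero) h3
  exact (Nat.prime_iff_prime_int.1 hp).dvd_of_dvd_pow h4

/-- If `x` satisfies the formula then it is congruent to an integer modulo `1 - ζ_p`. -/
lemma cong_of_dz {x : Zab} (hx : DZ x) {p : ℕ} (hp : p.Prime) (hp3 : 2 < p) :
    ∃ a : ℕ, (1 - zR p hp.ne_zero) ∣ x - a := by
  set ζ := zR p hp.ne_zero with hζ
  have hζp : ζ ^ p = 1 := (zR_prim p hp.ne_zero).pow_eq_one
  obtain ⟨η, hη, h⟩ := hx ζ ((mu_iff ζ).2 ⟨p, hp.ne_zero, hζp⟩)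
  rw [mu_iff] at hη
  obtain ⟨n, hn, hηn⟩ := hη
  have h1 : (1 - ζ) ∣ (1 - η) := by
    have h2 : (1 - ζ) ∣ x * (1 - ζ) - (1 - η) := (Dvd.intro _ (sq (1 - ζ)).symm).trans h
    exact (dvd_sub_right (Dvd.intro_left _ rfl)).1 h2
  have h2 : (p : Zab) ∣ 1 - η ^ p := by
    have h3 := frob p hp ζ (1 - X)
    simp only [map_sub, map_one, aeval_X, hζp, sub_self, sub_zero] at h3
    have h4 := frob p hp η (1 - X)
    simp only [map_sub, map_one, aeval_X] at h4
    have h5 : (p : Zab) ∣ (1 - η) ^ p := h3.trans (pow_dvd_pow_of_dvd h1 p)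
    exact (dvd_sub_right h5).1 h4
  obtain ⟨r, hr⟩ := h2
  have hr0 : r = 0 := by
    apply small
    intro φ
    have h3 : ‖φ (1 - η ^ p)‖ ≤ 2 := by
      rw [map_sub, map_one, map_pow]
      refine (norm_sub_le _ _).trans ?_
      rw [norm_one, norm_pow, root_norm hn (by rw [← map_pow, hηn, map_one]), one_pow]
      norm_num
    rw [hr, map_mul, map_natCast, norm_mul, Complex.norm_natCast] at h3
    have h4 : (3 : ℝ) ≤ p := by exact_mod_cast hp3
    by_contra h5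
    push Not at h5
    nlinarith
  have hηp : η ^ p = 1 := by
    rw [hr0, mul_zero] at hr
    exact (sub_eq_zero.1 hr).symm
  have : NeZero p := ⟨hp.ne_zero⟩
  obtain ⟨a, -, ha⟩ := (zR_prim p hp.ne_zero).eq_pow_of_pow_eq_one hηp
  refine ⟨a, ?_⟩
  have h6 := one_sub_sq_dvd ζ a
  rw [ha] at h6
  have h7 : (1 - ζ) * (1 - ζ) ∣ (x - a) * (1 - ζ) := by
    have h8 := dvd_sub h h6
    rw [sq] at h8
    have h9 : x * (1 - ζ) - (1 - η) - (a * (1 - ζ) - (1 - η)) = (x - a) * (1 - ζ) := by ring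
    rwa [h9] at h8
  exact (mul_dvd_mul_iff_right (one_sub_ne hp)).1 h7

lemma pow_sub_self_dvd {p : ℕ} (hp : p.Prime) {x : Zab} {a : ℕ} (D : ℕ)
    (h : (1 - zR p hp.ne_zero) ∣ x - a) : (1 - zR p hp.ne_zero) ∣ (D * x) ^ p - D * x := by
  set ζ := zR p hp.ne_zero with hζ
  have h1 : (1 - ζ) ∣ D * x - D * a := by
    have : (D : Zab) * x - D * a = D * (x - a) := by ring
    rw [this]
    exact h.mul_left _
  have h2 : (1 - ζ) ∣ (D * x) ^ p - (D * a : Zab) ^ p := h1.trans (sub_dvd_pow_sub_pow _ _ _)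
  have h3 : (1 - ζ) ∣ (p : Zab) := one_sub_dvd_nat (zR_prim p hp.ne_zero).pow_eq_one (one_sub_ne hp)
  have h4 : (1 - ζ) ∣ (D * a : Zab) ^ p - D * a := by
    have h5 := frob p hp 0 ((D * a : ℕ) : ℤ[X])
    simp only [map_natCast] at h5
    push_cast at h5
    exact h3.trans h5
  have h5 : (D * x) ^ p - D * x = ((D * x) ^ p - (D * a : Zab) ^ p) + ((D * a : Zab) ^ p - D * a) - (D * x - D * a) := by ring
  rw [h5]
  exact dvd_sub (dvd_add h2 h4) h1

/-- Elements satisfying the formula are fixed by all embeddings. -/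
lemma fixed_of_dz {x : Zab} (hx : DZ x) (ψ : Zab →+* ℂ) : ψ x = inc x := by
  obtain ⟨n, hn, D, g, hD, h⟩ := rep x
  have : NeZero n := ⟨hn⟩
  -- the exponent
  have hprim : IsPrimitiveRoot (ψ (zR n hn)) n := (zR_prim n hn).map_of_injective (by
    intro y z hyz
    by_contra hne
    obtain ⟨m, hm, hd⟩ := exists_int_mul (y - z) (sub_ne_zero.2 hne)
    obtain ⟨r, hr⟩ := hd
    have h1 := congrArg ψ hr
    rw [map_mul, map_sub, hyz, sub_self, zero_mul, map_intCast] at h1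
    exact hm (by exact_mod_cast h1))
  obtain ⟨b, -, hb⟩ := (zt_prim n hn).eq_pow_of_pow_eq_one hprim.pow_eq_one
  have hbc : b.Coprime n := by
    rw [← hb] at hprim
    exact ((zt_prim n hn).pow_iff_coprime (Nat.pos_of_ne_zero hn) b).1 hprim
  set Y : Zab := aeval ((zR n hn) ^ b) g with hY
  have h1 : (D : ℂ) * ψ x = inc Y := by
    rw [hY, hom_rep, map_pow, inc_zR, hb, ← hom_rep, ← h, map_mul, map_natCast]
  have hz : Y - D * x = 0 := by
    by_contra hne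
    obtain ⟨m, hm, hd⟩ := exists_int_mul _ hne
    have hu : IsUnit ((b : ℕ) : ZMod n) := (ZMod.isUnit_iff_coprime b n).2 hbc
    obtain ⟨p, hpm, hp, hpb⟩ := Nat.forall_exists_prime_gt_and_eq_mod hu (m.natAbs + 2)
    have hp2 : 2 < p := by omega
    obtain ⟨a, ha⟩ := cong_of_dz hx hp hp2
    have h2 := pow_sub_self_dvd hp D ha
    have h3 : (1 - zR p hp.ne_zero) ∣ (p : Zab) := one_sub_dvd_nat (zR_prim p hp.ne_zero).pow_eq_one (one_sub_ne hp)
    have h4 : (1 - zR p hp.ne_zero) ∣ (D * x) ^ p - Y := by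
      have h5 := h3.trans (frob p hp (zR n hn) g)
      have h6 : (zR n hn) ^ p = (zR n hn) ^ b := by
        exact pow_eq_pow_of_modEq ((ZMod.natCast_eq_natCast_iff _ _ _).1 hpb) (zR_prim n hn).pow_eq_one
      rw [h6, ← hY, ← h] at h5
      exact h5
    have h5 : (1 - zR p hp.ne_zero) ∣ Y - D * x := by
      have := dvd_sub h2 h4
      have e : (D * x) ^ p - D * x - ((D * x) ^ p - Y) = Y - D * x := by ring
      rwa [e] at this
    have h6 := dvd_of_one_sub hp (h5.trans hd)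
    have h7 := Int.natAbs_dvd_natAbs.2 h6
    have h8 := Nat.le_of_dvd (Int.natAbs_pos.2 hm) h7
    simp at h8
    omega
  have hD' : (D : ℂ) ≠ 0 := Nat.cast_ne_zero.2 hD
  apply mul_left_cancel₀ hD'
  rw [h1, sub_eq_zero.1 hz, map_mul, map_natCast]

lemma int_of_fixed {x : Zab} (h : ∀ ψ : Zab →+* ℂ, ψ x = inc x) : ∃ n : ℤ, x = n := by
  have hi : IsIntegral ℚ (x : Qab) := (Algebra.IsAlgebraic.isAlgebraic (x : Qab)).isIntegral
  have h1 : (minpoly ℚ (x : Qab)).natDegree = 1 := by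
    have hs : (minpoly ℚ (x : Qab)).Separable := (minpoly.irreducible hi).separable
    rw [← card_rootSet_eq_natDegree hs (IsAlgClosed.splits _ : Splits ((minpoly ℚ (x : Qab)).map (algebraMap ℚ ℂ)))]
    rw [Fintype.card_eq_one_iff]
    refine ⟨⟨inc x, ?_⟩, ?_⟩
    · rw [mem_rootSet]
      refine ⟨minpoly.ne_zero hi, ?_⟩
      have : inc x = algebraMap Qab ℂ (x : Qab) := rfl
      rw [this, aeval_algebraMap_apply, minpoly.aeval, map_zero]
    · rintro ⟨z, hz⟩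
      rw [mem_rootSet] at hz
      obtain ⟨φ, hφ⟩ := exists_hom x z hz.2
      exact Subtype.ext (hφ.symm.trans (h φ))
  rw [minpoly.natDegree_eq_one_iff] at h1
  obtain ⟨q, hq⟩ := h1
  refine int_of_rat x q ?_
  rw [inc_apply, ← hq]
  simp

/-- The formula defines the integers. -/
theorem dz_iff (x : Zab) : DZ x ↔ ∃ n : ℤ, x = n := by
  constructor
  · intro hx
    exact int_of_fixed (fixed_of_dz hx)
  · rintro ⟨n, rfl⟩
    exact dz_int n

end Pool.Agent.H68.ZA
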